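import Pool.Agent.Q284.GE.Stm

/-!
# Project GE (helper284): job GSL, a diagonally dominant system with a real solution
-/

set_option autoImplicit false

open Finset Polynomial ComplexConjugate
open Pool.Agent.H341R2.Sharp (Mon mem_Mon)

namespace Pool.Agent.Q208.GE

open Pool.Agent.Q284.PS (Prim Hay CM PD PI qq)
open Pool.Agent.Q284.GE

/-- linear algebra: a diagonally dominant system -/
theorem lin {ι : Type} [Fintype ι] [DecidableEq ι] (G : Matrix ι ι ℂ) (p : ℝ) (hp : 0 < p)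
    (hd : ∀ i, ∑ k ∈ univ.erase i, ‖G i k‖ + p ≤ ‖G i i‖) (T : ℝ) (hT : 0 ≤ T) (t : ι → ℂ)
    (ht : ∀ i, ‖t i‖ ≤ T) :
    ∃ s : ι → ℂ, (∀ i, ∑ k, G i k * s k = t i) ∧ (∀ k, ‖s k‖ ≤ T / p) ∧
      ∀ u : ι → ℂ, (∀ i, ∑ k, G i k * u k = t i) → u = s := by
  have hdet : G.det ≠ 0 := det_ne_zero_of_sum_row_lt_diag (fun i => by
    have := hd i
    linarith)
  have hU : IsUnit G.det := isUnit_iff_ne_zero.mpr hdet
  have hsol : ∀ i, ∑ k, G i k * (G⁻¹.mulVec t) k = t i := by
    intro i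
    have h : G.mulVec (G⁻¹.mulVec t) = t := by
      rw [Matrix.mulVec_mulVec, Matrix.mul_nonsing_inv _ hU, Matrix.one_mulVec]
    exact congrFun h i
  refine ⟨G⁻¹.mulVec t, hsol, ?_, ?_⟩
  · intro k
    set s : ι → ℂ := G⁻¹.mulVec t with hs
    obtain ⟨m, -, hm⟩ := exists_max_image univ (fun i => ‖s i‖) ⟨k, mem_univ k⟩
    have h1 : G m m * s m = t m - ∑ i ∈ univ.erase m, G m i * s i := by
      rw [← hsol m, ← add_sum_erase univ _ (mem_univ m)]
      ring
    have h2 : ‖G m m‖ * ‖s m‖ ≤ T + (∑ i ∈ univ.erase m, ‖G m i‖) * ‖s m‖ := by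
      rw [← norm_mul, h1]
      refine (norm_sub_le _ _).trans ?_
      refine add_le_add (ht m) ?_
      refine (norm_sum_le _ _).trans ?_
      rw [sum_mul]
      apply sum_le_sum
      intro i _
      rw [norm_mul]
      exact mul_le_mul_of_nonneg_left (hm i (mem_univ i)) (norm_nonneg _)
    have h3 := mul_le_mul_of_nonneg_right (hd m) (norm_nonneg (s m))
    have h4 : p * ‖s m‖ ≤ T := by
      rw [add_mul] at h3
      linarith
    refine (hm k (mem_univ k)).trans ?_
    rw [le_div_iff₀ hp]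
    linarith
  · intro u hu
    have h : G.mulVec u = t := funext hu
    rw [← h, Matrix.mulVec_mulVec, Matrix.nonsing_inv_mul _ hU, Matrix.one_mulVec]

section

variable {F : Type} [Field F]

theorem norm_le_one {Q : F[X]} {l : ℕ} {χ : F[X] → ℂ} (h : Hay Q l χ) (f : F[X]) : ‖χ f‖ ≤ 1 := by
  by_cases hf : f.Monic
  · by_cases h1 : IsCoprime f Q
    · rw [h.norm f hf h1]
    · rw [h.zero f hf h1]
      simp
  · rw [h.off f hf]
    simp

theorem mem_PI [Fintype F] {n : ℕ} {P : F[X]} :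
    P ∈ PI F n ↔ P.Monic ∧ P.natDegree = n ∧ Irreducible P := by
  classical
  unfold PI
  rw [mem_filter, mem_Mon, and_assoc]

/-- at most `deg Q / j` primes of degree `j` divide `Q` -/
theorem card_bad [Fintype F] {Q : F[X]} {l : ℕ} {χ : F[X] → ℂ} (h : Hay Q l χ) (j : ℕ) :
    (open Classical in ((PI F j).filter (fun P => χ P = 0)).card) * j ≤ Q.natDegree := by
  classical
  have hmon : ∀ P ∈ (PI F j).filter (fun P => χ P = 0), P.Monic ∧ P.natDegree = j ∧ Irreducible P :=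
    fun P hP => mem_PI.mp (mem_filter.mp hP).1
  have hdvd : ∀ P ∈ (PI F j).filter (fun P => χ P = 0), P ∣ Q := by
    intro P hP
    have h1 := hmon P hP
    have h2 : ¬ IsCoprime P Q := by
      intro hc
      have h3 := h.norm P h1.1 hc
      rw [(mem_filter.mp hP).2] at h3
      simp at h3
    by_contra hnd
    exact h2 ((Irreducible.coprime_iff_not_dvd h1.2.2).mpr hnd)
  have hcop : ((((PI F j).filter (fun P => χ P = 0)) : Finset F[X]) : Set F[X]).Pairwise
      (Function.onFun IsCoprime (fun P : F[X] => P)) := by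
    intro P hP P' hP' hne
    have h1 := hmon P hP
    have h2 := hmon P' hP'
    show IsCoprime P P'
    rw [Irreducible.coprime_iff_not_dvd h1.2.2]
    intro hd
    exact hne (Polynomial.eq_of_monic_of_associated h1.1 h2.1 (h1.2.2.associated_of_dvd h2.2.2 hd))
  have hprod : (∏ P ∈ (PI F j).filter (fun P => χ P = 0), P) ∣ Q := prod_dvd_of_coprime hcop hdvd
  have hdeg := natDegree_le_of_dvd hprod h.monic.ne_zero
  rw [natDegree_prod_of_monic _ _ (fun P hP => (hmon P hP).1)] at hdeg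
  rw [sum_congr rfl (fun P hP => (hmon P hP).2.1), sum_const, smul_eq_mul] at hdeg
  convert hdeg

/-- the diagonal entries -/
theorem diag [Fintype F] {Q : F[X]} {l : ℕ} {χ : F[X] → ℂ} (h : Hay Q l χ) (j c₀ : ℕ) (hj : 1 ≤ j)
    (hc : Q.natDegree + l ≤ c₀) :
    ((PI F j).card : ℝ) - c₀ / j ≤ ‖∑ P ∈ PI F j, χ P * conj (χ P)‖ := by
  classical
  have hjR : (0 : ℝ) < j := by exact_mod_cast hj
  have h1 : ∑ P ∈ PI F j, χ P * conj (χ P) =
      ((((PI F j).filter (fun P => ¬ χ P = 0)).card : ℕ) : ℂ) := by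
    rw [card_filter]
    push_cast
    apply sum_congr rfl
    intro P hP
    have hm := mem_PI.mp hP
    by_cases h2 : χ P = 0
    · rw [if_neg (not_not.mpr h2), h2, zero_mul]
    · rw [if_pos h2, Complex.mul_conj, Complex.normSq_eq_norm_sq]
      have h3 : IsCoprime P Q := by
        by_contra hc
        exact h2 (h.zero P hm.1 hc)
      rw [h.norm P hm.1 h3]
      norm_num
  rw [h1, Complex.norm_natCast]
  have h2 : ((PI F j).filter (fun P => χ P = 0)).card + ((PI F j).filter (fun P => ¬ χ P = 0)).card =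
      (PI F j).card := card_filter_add_card_filter_not _
  have h3 := card_bad h j
  have h4 : (((PI F j).filter (fun P => χ P = 0)).card : ℝ) ≤ c₀ / j := by
    rw [le_div_iff₀ hjR]
    have h5 : ((PI F j).filter (fun P => χ P = 0)).card * j ≤ c₀ := by
      refine le_trans ?_ (le_trans h3 (by omega : Q.natDegree ≤ c₀))
      exact le_of_eq (by congr!)
    exact_mod_cast h5
  have h6 : (((PI F j).filter (fun P => χ P = 0)).card : ℝ) +
      (((PI F j).filter (fun P => ¬ χ P = 0)).card : ℝ) = (PI F j).card := by exact_mod_cast h2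
  linarith

end

theorem t_GSL : S_WPR → S_GSL := by
  intro hWPR F _ _ j c₀ C T t hj hC hconj hbig ht
  classical
  have hjR : (0 : ℝ) < j := by exact_mod_cast hj
  have hr : 0 < Real.sqrt (qq F) := by
    apply Real.sqrt_pos.mpr
    unfold qq
    exact_mod_cast Fintype.card_pos
  have hrj : 0 < Real.sqrt (qq F) ^ j := pow_pos hr j
  set r : ℝ := Real.sqrt (qq F) ^ j with hrdef
  set π : ℝ := ((PI F j).card : ℝ) with hπ
  by_cases hCe : C = ∅
  · subst hCe
    refine ⟨fun _ => 0, by simp, by simp, ?_⟩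
    intro Q l χ _ _
    simp
  obtain ⟨χ₀, hχ₀⟩ := nonempty_iff_ne_empty.mpr hCe
  have hT : 0 ≤ T := (norm_nonneg _).trans (ht χ₀ hχ₀).1
  have hCc : (1 : ℝ) ≤ C.card := by exact_mod_cast card_pos.mpr ⟨χ₀, hχ₀⟩
  have hπ0 : 0 < π / 2 := by
    have h1 : 0 < (C.card : ℝ) * (2 * c₀ + 2) * r / j := by positivity
    have h2 : (0 : ℝ) ≤ c₀ / j := by positivity
    linarith
  -- bound off the diagonal
  have hoff : ∀ χ ψ : F[X] → ℂ, χ ∈ C → ψ ∈ C → χ ≠ ψ →
      ‖∑ P ∈ PI F j, χ P * conj (ψ P)‖ ≤ (2 * c₀ + 2) * r / j := by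
    intro χ ψ hχ hψ hne
    obtain ⟨Q, l, hP, hc⟩ := hC χ hχ
    obtain ⟨Q', l', hP', hc'⟩ := hC ψ hψ
    have h := hWPR F Q Q' l l' χ ψ hP hP' hne j hj
    rw [le_div_iff₀ hjR]
    refine h.trans ?_
    apply mul_le_mul_of_nonneg_right _ hrj.le
    have h1 : ((Q.natDegree : ℝ) + l) ≤ c₀ := by exact_mod_cast hc
    have h2 : ((Q'.natDegree : ℝ) + l') ≤ c₀ := by exact_mod_cast hc'
    linarith
  let G : Matrix C C ℂ := fun χ ψ => ∑ P ∈ PI F j, χ.1 P * conj (ψ.1 P)
  have hdom : ∀ i : C, ∑ k ∈ univ.erase i, ‖G i k‖ + π / 2 ≤ ‖G i i‖ := by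
    intro i
    obtain ⟨Q, l, hP, hc⟩ := hC i.1 i.2
    have h1 : π - c₀ / j ≤ ‖G i i‖ := diag hP.1 j c₀ hj hc
    have h2 : ∑ k ∈ univ.erase i, ‖G i k‖ ≤ (C.card : ℝ) * ((2 * c₀ + 2) * r / j) := by
      calc ∑ k ∈ univ.erase i, ‖G i k‖ ≤ ∑ _k ∈ univ.erase i, (2 * c₀ + 2) * r / j := by
            apply sum_le_sum
            intro k hk
            apply hoff i.1 k.1 i.2 k.2
            intro h
            exact (mem_erase.mp hk).1 (Subtype.ext h.symm)
        _ = ((univ.erase i).card : ℝ) * ((2 * c₀ + 2) * r / j) := by rw [sum_const, nsmul_eq_mul]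
        _ ≤ _ := by
            apply mul_le_mul_of_nonneg_right _ (by positivity)
            have h3 : (univ.erase i).card ≤ (univ : Finset C).card := card_le_card (erase_subset _ _)
            rw [Finset.card_univ, Fintype.card_coe] at h3
            exact_mod_cast h3
    have h3 : (C.card : ℝ) * ((2 * c₀ + 2) * r / j) = (C.card : ℝ) * (2 * c₀ + 2) * r / j := by ring
    linarith
  obtain ⟨s, hs1, hs2, hs3⟩ := lin G (π / 2) hπ0 hdom T hT (fun χ => t χ.1) (fun χ => (ht χ.1 χ.2).1)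
  have hs2' : ∀ k, ‖s k‖ ≤ 2 * T / π := by
    intro k
    refine (hs2 k).trans (le_of_eq ?_)
    field_simp
  -- conjugation
  let cj : C → C := fun ψ => ⟨fun f => conj (ψ.1 f), hconj ψ.1 ψ.2⟩
  have hcj : Function.Involutive cj := by
    intro ψ
    apply Subtype.ext
    funext f
    exact Complex.conj_conj _
  have hsum : ∀ f : C → ℂ, ∑ ψ, f (cj ψ) = ∑ ψ, f ψ := by
    intro f
    exact Equiv.sum_comp hcj.toPerm f
  have hsym : (fun ψ => conj (s (cj ψ))) = s := by
    apply hs3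
    intro χ
    have h1 : ∀ ψ : C, G χ ψ * conj (s (cj ψ)) = conj (G (cj χ) (cj ψ) * s (cj ψ)) := by
      intro ψ
      rw [map_mul]
      congr 1
      show ∑ P ∈ PI F j, χ.1 P * conj (ψ.1 P) =
        conj (∑ P ∈ PI F j, conj (χ.1 P) * conj (conj (ψ.1 P)))
      rw [map_sum]
      apply sum_congr rfl
      intro P _
      rw [map_mul, Complex.conj_conj, Complex.conj_conj]
    calc ∑ ψ, G χ ψ * conj (s (cj ψ)) = ∑ ψ, conj (G (cj χ) (cj ψ) * s (cj ψ)) :=
          sum_congr rfl (fun ψ _ => h1 ψ)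
      _ = conj (∑ ψ, G (cj χ) (cj ψ) * s (cj ψ)) := by rw [map_sum]
      _ = conj (∑ ψ, G (cj χ) ψ * s ψ) := by rw [hsum (fun ψ => G (cj χ) ψ * s ψ)]
      _ = conj (t (cj χ).1) := by rw [hs1]
      _ = t χ.1 := by
          show conj (t (fun f => conj (χ.1 f))) = t χ.1
          rw [(ht χ.1 χ.2).2, Complex.conj_conj]
  have hsym' : ∀ ψ : C, conj (s (cj ψ)) = s ψ := fun ψ => congrFun hsym ψ
  set Y : F[X] → ℂ := fun P => ∑ ψ : C, s ψ * conj (ψ.1 P) with hY
  have hreal : ∀ P, conj (Y P) = Y P := by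
    intro P
    have h1 : conj (Y P) = ∑ ψ : C, conj (s ψ) * ψ.1 P := by
      rw [hY]
      simp only [map_sum, map_mul, Complex.conj_conj]
    have h2 : ∑ ψ : C, conj (s ψ) * ψ.1 P = ∑ ψ : C, conj (s (cj ψ)) * (cj ψ).1 P :=
      (hsum (fun ψ => conj (s ψ) * ψ.1 P)).symm
    rw [h1, h2]
    apply sum_congr rfl
    intro ψ _
    rw [hsym' ψ]
  have hre : ∀ P, (((Y P).re : ℝ) : ℂ) = Y P := fun P => Complex.conj_eq_iff_re.mp (hreal P)
  have hswap : ∀ χ : F[X] → ℂ, ∑ P ∈ PI F j, (((Y P).re : ℝ) : ℂ) * χ P =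
      ∑ ψ : C, s ψ * ∑ P ∈ PI F j, χ P * conj (ψ.1 P) := by
    intro χ
    calc ∑ P ∈ PI F j, (((Y P).re : ℝ) : ℂ) * χ P
        = ∑ P ∈ PI F j, ∑ ψ : C, s ψ * conj (ψ.1 P) * χ P := by
          apply sum_congr rfl
          intro P _
          rw [hre P, hY, sum_mul]
      _ = ∑ ψ : C, ∑ P ∈ PI F j, s ψ * conj (ψ.1 P) * χ P := sum_comm
      _ = _ := by
          apply sum_congr rfl
          intro ψ _
          rw [mul_sum]
          apply sum_congr rfl
          intro P _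
          ring
  refine ⟨fun P => (Y P).re, ?_, ?_, ?_⟩
  · intro χ hχ
    rw [hswap χ]
    have h := hs1 ⟨χ, hχ⟩
    calc ∑ ψ : C, s ψ * ∑ P ∈ PI F j, χ P * conj (ψ.1 P) = ∑ ψ : C, G ⟨χ, hχ⟩ ψ * s ψ := by
          apply sum_congr rfl
          intro ψ _
          rw [mul_comm]
      _ = t χ := h
  · intro P
    refine (Complex.abs_re_le_norm _).trans ?_
    rw [hY]
    refine (norm_sum_le _ _).trans ?_
    calc ∑ ψ : C, ‖s ψ * conj (ψ.1 P)‖ ≤ ∑ _ψ : C, 2 * T / π := by
          apply sum_le_sum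
          intro ψ _
          obtain ⟨Q, l, hP, -⟩ := hC ψ.1 ψ.2
          rw [norm_mul, RCLike.norm_conj]
          have h1 := norm_le_one hP.1 P
          calc ‖s ψ‖ * ‖ψ.1 P‖ ≤ 2 * T / π * 1 :=
                mul_le_mul (hs2' ψ) h1 (norm_nonneg _) (by positivity)
            _ = 2 * T / π := mul_one _
      _ = (C.card : ℝ) * (2 * T / π) := by
          rw [sum_const, nsmul_eq_mul, Finset.card_univ, Fintype.card_coe]
  · intro Q l χ hPr hχ
    rw [hswap χ]
    refine (norm_sum_le _ _).trans ?_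
    calc ∑ ψ : C, ‖s ψ * ∑ P ∈ PI F j, χ P * conj (ψ.1 P)‖
        ≤ ∑ _ψ : C, (2 * T / π) * (((Q.natDegree : ℝ) + l + c₀ + 2) * r / j) := by
          apply sum_le_sum
          intro ψ _
          obtain ⟨Q', l', hP', hc'⟩ := hC ψ.1 ψ.2
          rw [norm_mul]
          apply mul_le_mul (hs2' ψ) _ (norm_nonneg _) (by positivity)
          have hne : χ ≠ ψ.1 := by
            intro h
            exact hχ (h ▸ ψ.2)
          have h := hWPR F Q Q' l l' χ ψ.1 hPr hP' hne j hj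
          rw [le_div_iff₀ hjR]
          refine h.trans ?_
          apply mul_le_mul_of_nonneg_right _ hrj.le
          have h2 : ((Q'.natDegree : ℝ) + l') ≤ c₀ := by exact_mod_cast hc'
          linarith
      _ = (C.card : ℝ) * ((2 * T / π) * (((Q.natDegree : ℝ) + l + c₀ + 2) * r / j)) := by
          rw [sum_const, nsmul_eq_mul, Finset.card_univ, Fintype.card_coe]
      _ = _ := by ring

end Pool.Agent.Q208.GE
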